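import Pool.Agent.H328R3.HurD
import Pool.Agent.Helper292.ForceCH

/-!
Under the continuum hypothesis a Hurewicz set generates a Borel group which is not σ-compact.
-/

set_option autoImplicit false

namespace Pool.Agent.Results.MP_88659e_gt.UnderCH

/-- (1) Under the continuum hypothesis there are a compact Polish abelian group `G`, all of whose
elements have order at most two, and a set `X ⊆ G` with the Hurewicz covering property such that
the subgroup generated by `X` is Borel but not σ-compact. Moreover this subgroup is `X + X`, and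
no σ-compact set lies between `X` and it. (2) Some forcing notion forces, below every condition,
that `ω₁` is preserved and that the continuum hypothesis holds. -/
theorem result :
    (Cardinal.aleph 1 = Cardinal.continuum.{0} →
      ∃ (G : Type) (_ : TopologicalSpace G) (_ : PolishSpace G) (_ : CompactSpace G)
        (_ : AddCommGroup G) (_ : IsTopologicalAddGroup G) (X : Set G),
        (∀ g : G, g + g = 0) ∧
        @MeasurableSet G (borel G) (AddSubgroup.closure X : Set G) ∧
        ¬ IsSigmaCompact (AddSubgroup.closure X : Set G) ∧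
        (∀ h ∈ AddSubgroup.closure X, ∃ x ∈ X, ∃ y ∈ X, x + y = h) ∧
        (¬ ∃ F : Set G, IsSigmaCompact F ∧ X ⊆ F ∧ F ⊆ (AddSubgroup.closure X : Set G)) ∧
        ∀ U : ℕ → Set (Set G), (∀ n, (∀ u ∈ U n, IsOpen u) ∧ X ⊆ ⋃₀ U n) →
          ∃ F : ℕ → Finset (Set G), (∀ n, (F n : Set (Set G)) ⊆ U n) ∧
            ∀ x ∈ X, ∀ᶠ n in Filter.atTop, x ∈ ⋃₀ (F n : Set (Set G))) ∧
    (∃ (Q : Type) (_ : Preorder Q), Nonempty Q ∧ ∀ q : Q,
      q ∈ Pool.Agent.Helper292.ForceCH.OmegaOnePreserved Q ∧
      q ∈ Pool.Agent.Helper292.ForceCH.CHHolds Q) := by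
  refine ⟨Pool.Agent.H328R3.Hur.main_exists, ?_⟩
  obtain ⟨P, i, h1, h2⟩ := Pool.Agent.Helper292.ForceCH.exists_forcing
  exact ⟨P, i, h1, fun p => ⟨(h2 p).1, (h2 p).2.2⟩⟩

end Pool.Agent.Results.MP_88659e_gt.UnderCH
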